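import Pool.Agent.H78R3.LF.FT

/-!
# Dimension of measures whose Fourier transform lies in a line field
-/

namespace Pool.Agent.Results.MP_a02827_an.LineFieldDimension

open MeasureTheory Set
open scoped ENNReal Real ContDiff

noncomputable section

/-- The unit sphere `S^{d-1}` of `ℝ^d`. -/
abbrev Sph (d : ℕ) := Metric.sphere (0 : EuclideanSpace ℝ (Fin d)) 1

/-- `Ω` is a smooth map from `S^{d-1}` to the set `G(d,1)` of complex lines of `ℂ^d`: all values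
are lines, and near each point `Ω` is spanned by a smooth function without zeros. -/
def IsSmoothLineField {d : ℕ} (Ω : Sph d → Submodule ℂ (EuclideanSpace ℂ (Fin d))) : Prop :=
  (∀ x, Module.finrank ℂ (Ω x) = 1) ∧
  ∀ x : Sph d, ∃ U : Set (EuclideanSpace ℝ (Fin d)),
    IsOpen U ∧ (x : EuclideanSpace ℝ (Fin d)) ∈ U ∧
    ∃ w : EuclideanSpace ℝ (Fin d) → EuclideanSpace ℂ (Fin d), ContDiffOn ℝ ∞ w U ∧
      ∀ y : Sph d, (y : EuclideanSpace ℝ (Fin d)) ∈ U →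
        w y ≠ 0 ∧ Ω y = Submodule.span ℂ {w y}

/-- `Ω` is not constant. -/
def NonConstant {d : ℕ} (Ω : Sph d → Submodule ℂ (EuclideanSpace ℂ (Fin d))) : Prop :=
  ∃ x y, Ω x ≠ Ω y

/-- The direction `ξ / |ξ|`. -/
def dir {d : ℕ} (ξ : EuclideanSpace ℝ (Fin d)) (hξ : ξ ≠ 0) : Sph d :=
  ⟨‖ξ‖⁻¹ • ξ, by
    rw [mem_sphere_zero_iff_norm, norm_smul, norm_inv, norm_norm,
      inv_mul_cancel₀ (norm_ne_zero_iff.2 hξ)]⟩

/-- The Fourier transform `∫ exp (-2 π i ⟨x, ξ⟩) dμ(x)` of a `ℂ^d`-valued measure. -/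
def ft {d : ℕ} (μ : VectorMeasure (EuclideanSpace ℝ (Fin d)) (EuclideanSpace ℂ (Fin d)))
    (ξ : EuclideanSpace ℝ (Fin d)) : EuclideanSpace ℂ (Fin d) :=
  μ.integral (fun x => Complex.exp (-(2 * π * Complex.I * (inner ℝ x ξ : ℝ))))
    (ContinuousLinearMap.lsmul ℝ ℂ)

/-- The class `BV(Ω)`: `ℂ^d`-valued measures of bounded variation with
`ft μ ξ ∈ Ω (ξ / |ξ|)` for all `ξ ≠ 0`. -/
def BV {d : ℕ} (Ω : Sph d → Submodule ℂ (EuclideanSpace ℂ (Fin d))) :
    Set (VectorMeasure (EuclideanSpace ℝ (Fin d)) (EuclideanSpace ℂ (Fin d))) :=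
  {μ | IsFiniteMeasure μ.variation ∧ ∀ (ξ : EuclideanSpace ℝ (Fin d)) (hξ : ξ ≠ 0),
    ft μ ξ ∈ Ω (dir ξ hξ)}

/-- `Ω` is `k`-antisymmetric. -/
def Antisymmetric {d : ℕ} (k : ℕ) (Ω : Sph d → Submodule ℂ (EuclideanSpace ℂ (Fin d))) : Prop :=
  ∀ L : Submodule ℝ (EuclideanSpace ℝ (Fin d)), Module.finrank ℝ L = k + 1 →
    ⨅ x : Sph d, ⨅ _ : (x : EuclideanSpace ℝ (Fin d)) ∈ L, Ω x = ⊥

/-- `a(Ω)`, the least `k` in `{0, …, d-1}` such that `Ω` is `k`-antisymmetric. -/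
def antiIndex {d : ℕ} (Ω : Sph d → Submodule ℂ (EuclideanSpace ℂ (Fin d))) : ℕ :=
  sInf {k | k < d ∧ Antisymmetric k Ω}

/-- The lower Hausdorff dimension of a vector measure: the infimum of the Hausdorff dimensions of
the Borel sets `F` with `μ(F) ≠ 0`. -/
def lowerDim {d : ℕ}
    (μ : VectorMeasure (EuclideanSpace ℝ (Fin d)) (EuclideanSpace ℂ (Fin d))) : ℝ≥0∞ :=
  ⨅ (F : Set (EuclideanSpace ℝ (Fin d))) (_ : MeasurableSet F) (_ : μ F ≠ 0), dimH F

/-- The assertion of the question: `dim_H μ ≥ d - a(Ω)` for all `d ≥ 2`, all smooth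
non-constant `Ω` and all `μ` in `BV(Ω)`. -/
def DimensionBound : Prop :=
  ∀ d : ℕ, 2 ≤ d → ∀ Ω : Sph d → Submodule ℂ (EuclideanSpace ℂ (Fin d)),
    IsSmoothLineField Ω → NonConstant Ω → ∀ μ ∈ BV Ω,
      ((d - antiIndex Ω : ℕ) : ℝ≥0∞) ≤ lowerDim μ

open H78R3.LF in
lemma zero_notMem (A d n : ℕ) : (0 : Rd d) ∉ UU A d n := by
  rintro ⟨i, j, _, _, l, _, h2⟩
  simp at h2

open H78R3.LF in
lemma main (d k : ℕ) (hk1 : 1 ≤ k) (hk2 : k + 2 ≤ d) (s : ℝ) (hs : ((d : ℝ) - k + 1) / 2 < s) :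
    ∃ Ω : Sph d → Submodule ℂ (EuclideanSpace ℂ (Fin d)), IsSmoothLineField Ω ∧
      NonConstant Ω ∧ antiIndex Ω = k ∧ ∃ μ ∈ BV Ω, lowerDim μ ≤ ENNReal.ofReal s := by
  classical
  obtain ⟨A, hA⟩ : ∃ A : ℕ, A + k = d + 1 := ⟨d + 1 - k, by omega⟩
  have hAd : A ≤ d := by omega
  have hA3 : 3 ≤ A := by omega
  have hAs : (A : ℝ) / 2 < s := by
    have h1 : (A : ℝ) + k = d + 1 := by exact_mod_cast hA
    have : (A : ℝ) = d - k + 1 := by linarith
    rw [this]; exact hs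
  obtain ⟨n, hn, μ, hfin, hft, F, hFm, hF, hdim⟩ := exists_measure (by omega : 0 < A) hAd hAs
  have hd : 0 < d := by omega
  have hn' : (8 : ℝ) ≤ n := by exact_mod_cast hn
  obtain ⟨h, hsupp, hcd, hrange⟩ := (isOpen_UU A d n).exists_contDiff_support_eq (n := ⊤)
  have hnn : ∀ x, 0 ≤ h x := fun x => (hrange ⟨x, rfl⟩).1
  have hin : ∀ x, x ∈ UU A d n ↔ h x ≠ 0 := fun x => by
    rw [← hsupp]; exact Function.mem_support
  -- antisymmetry at pairs of antipodal points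
  have hpair : ∀ x : Sph d, (x : Rd d) ∈ UU A d n → ∀ z : EuclideanSpace ℂ (Fin d),
      z ∈ Submodule.span ℂ {wv hd h x} → z ∈ Submodule.span ℂ {wv hd h ((-x : Sph d) : Rd d)} →
      z = 0 := by
    intro x hx z h1 h2
    have hx0 : (x : Rd d) ≠ 0 := by
      intro hc; rw [hc] at hx; exact zero_notMem _ _ _ hx
    refine wv_anti hd (by omega) hnn hx0 ((hin _).1 hx) h1 ?_
    simpa using h2
  refine ⟨fun x => Submodule.span ℂ {wv hd h x}, ⟨?_, ?_⟩, ?_, ?_, μ, ⟨hfin, ?_⟩, ?_⟩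
  · intro x
    exact finrank_span_singleton (wv_ne hd h x)
  · intro x
    refine ⟨univ, isOpen_univ, mem_univ _, wv hd h, (wv_contDiff hd hcd).contDiffOn, ?_⟩
    exact fun y _ => ⟨wv_ne hd h y, rfl⟩
  · -- not constant
    set p : Rd d := WithLp.toLp 2 (fun i : Fin d => if (i : ℕ) = 0 then 1 else
      if (i : ℕ) = 1 then (n : ℝ) else 0) with hp
    have hpU : p ∈ UU A d n := by
      refine ⟨⟨0, hd⟩, ⟨1, by omega⟩, by simp; omega, by simp; omega, 0, ?_⟩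
      simp only [hp, zpow_zero]
      norm_num
      constructor <;> linarith
    have hp0 : p ≠ 0 := by
      intro hc; rw [hc] at hpU; exact zero_notMem _ _ _ hpU
    have hx : (dir p hp0 : Rd d) ∈ UU A d n :=
      smul_mem_UU hpU (inv_ne_zero (norm_ne_zero_iff.2 hp0))
    refine ⟨dir p hp0, -dir p hp0, fun hc => ?_⟩
    have hc' : Submodule.span ℂ {wv hd h (dir p hp0)}
        = Submodule.span ℂ {wv hd h ((-dir p hp0 : Sph d) : Rd d)} := hc
    have hmem : wv hd h (dir p hp0) ∈ Submodule.span ℂ {wv hd h (dir p hp0)} :=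
      Submodule.mem_span_singleton_self _
    exact wv_ne hd h _ (hpair _ hx _ hmem (hc' ▸ hmem))
  · -- the index
    refine IsLeast.csInf_eq ⟨⟨by omega, ?_⟩, ?_⟩
    · intro L hL
      obtain ⟨ξ, hξL, hξU⟩ := exists_mem_UU hAd hA hn L hL
      have hξ0 : ξ ≠ 0 := by
        intro hc; rw [hc] at hξU; exact zero_notMem _ _ _ hξU
      have hx : (dir ξ hξ0 : Rd d) ∈ UU A d n :=
        smul_mem_UU hξU (inv_ne_zero (norm_ne_zero_iff.2 hξ0))
      have hxL : (dir ξ hξ0 : Rd d) ∈ L := L.smul_mem _ hξL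
      have hxL' : ((-dir ξ hξ0 : Sph d) : Rd d) ∈ L := by
        rw [coe_neg_sphere]; exact L.neg_mem hxL
      rw [eq_bot_iff]
      intro z hz
      simp only [Submodule.mem_iInf] at hz
      exact hpair _ hx z (hz _ hxL) (hz _ hxL')
    · rintro j ⟨_, hj⟩
      by_contra hcon
      push Not at hcon
      obtain ⟨L, hL, hav⟩ := exists_avoid hAd (by omega) hA hn hcon
      have hbot := hj L hL
      have hmem : e0 d ∈ (⨅ x : Sph d, ⨅ _ : (x : EuclideanSpace ℝ (Fin d)) ∈ L,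
          Submodule.span ℂ {wv hd h x}) := by
        simp only [Submodule.mem_iInf]
        intro x hx
        have hx0 : h x = 0 := by
          by_contra hc
          exact hav _ hx ((hin _).2 hc)
        rw [wv_zero hd hx0]
        exact Submodule.mem_span_singleton_self _
      rw [hbot] at hmem
      exact e0_ne hd ((Submodule.mem_bot ℂ).1 hmem)
  · -- the Fourier transform
    intro ξ hξ
    obtain ⟨c, hc, hc0⟩ := hft ξ
    show ft μ ξ ∈ Submodule.span ℂ {wv hd h (dir ξ hξ)}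
    unfold ft
    rw [hc]
    by_cases hU : ξ ∈ UU A d n
    · rw [hc0 hU, zero_smul]; exact Submodule.zero_mem _
    · have hdir : h (dir ξ hξ) = 0 := by
        by_contra hcon
        apply hU
        have h1 := smul_mem_UU ((hin _).2 hcon) (norm_ne_zero_iff.2 hξ)
        have h2 : ‖ξ‖ • ((dir ξ hξ : Sph d) : Rd d) = ξ := by
          show ‖ξ‖ • (‖ξ‖⁻¹ • ξ) = ξ
          rw [smul_smul, mul_inv_cancel₀ (norm_ne_zero_iff.2 hξ), one_smul]
        rwa [h2] at h1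
      rw [wv_zero hd hdir]
      exact Submodule.smul_mem _ _ (Submodule.mem_span_singleton_self _)
  · exact iInf_le_of_le F (iInf_le_of_le hFm (iInf_le_of_le hF hdim))

/-- For every `d ≥ 3`, every `k` with `1 ≤ k ≤ d - 2` and every `s > (d - k + 1)/2` there are a
smooth non-constant `Ω : S^{d-1} → G(d,1)` with `a(Ω) = k` and a measure in `BV(Ω)` whose lower
Hausdorff dimension is at most `s`. As `(d - k + 1)/2 < d - k`, the bound
`dim_H μ ≥ d - a(Ω)` fails for every such pair `(d, k)`; in particular the assertion of the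
question is false. -/
theorem result :
    (∀ d k : ℕ, 1 ≤ k → k + 2 ≤ d → ∀ s : ℝ, ((d : ℝ) - k + 1) / 2 < s →
      ∃ Ω : Sph d → Submodule ℂ (EuclideanSpace ℂ (Fin d)), IsSmoothLineField Ω ∧
        NonConstant Ω ∧ antiIndex Ω = k ∧ ∃ μ ∈ BV Ω, lowerDim μ ≤ ENNReal.ofReal s) ∧
    (∀ d k : ℕ, 1 ≤ k → k + 2 ≤ d →
      ∃ Ω : Sph d → Submodule ℂ (EuclideanSpace ℂ (Fin d)), IsSmoothLineField Ω ∧
        NonConstant Ω ∧ antiIndex Ω = k ∧ ∃ μ ∈ BV Ω, lowerDim μ < ((d - k : ℕ) : ℝ≥0∞)) ∧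
    ¬ DimensionBound := by
  have h2 : ∀ d k : ℕ, 1 ≤ k → k + 2 ≤ d →
      ∃ Ω : Sph d → Submodule ℂ (EuclideanSpace ℂ (Fin d)), IsSmoothLineField Ω ∧
        NonConstant Ω ∧ antiIndex Ω = k ∧
        ∃ μ ∈ BV Ω, lowerDim μ < ((d - k : ℕ) : ℝ≥0∞) := by
    intro d k hk1 hk2
    have hdk : (2 : ℝ) ≤ (d : ℝ) - k := by
      have : (k : ℝ) + 2 ≤ d := by exact_mod_cast hk2
      linarith
    obtain ⟨Ω, h1, h2, h3, μ, hμ, h4⟩ := main d k hk1 hk2 ((d : ℝ) - k - 1 / 4)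
      (by linarith)
    refine ⟨Ω, h1, h2, h3, μ, hμ, lt_of_le_of_lt h4 ?_⟩
    rw [ENNReal.ofReal_lt_iff_lt_toReal (by linarith) (ENNReal.natCast_ne_top _),
      ENNReal.toReal_natCast, Nat.cast_sub (by omega)]
    linarith
  refine ⟨main, h2, fun hcon => ?_⟩
  obtain ⟨Ω, h1, h2, h3, μ, hμ, h4⟩ := h2 3 1 le_rfl le_rfl
  have h5 := hcon 3 (by norm_num) Ω h1 h2 μ hμ
  rw [h3] at h5
  exact absurd h4 (not_lt.2 h5)

end

end Pool.Agent.Results.MP_a02827_an.LineFieldDimension
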